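import Pool.Agent.V1146.Car.FReg

/-!
# A `p`-stable `p`-family without property (S)

Let `k` be an infinite perfect field of characteristic `p > 0` and `R = k[x][y]`. Then `R` is a
Noetherian `F`-finite strongly `F`-regular ring, and there is a `p`-stable `p`-family of ideals
of `R` which is not compatible with any surjective map `φ ∈ Hom_R(F^d_* R, R)`, `d ≥ 1`.

The family is `b_e = {f : mult_{P_i}(f) ≥ p ^ e * (p ^ i + 1) / p ^ (2 * i) for all i ≥ 0}` with
infinitely many distinct points `P_i = (a_i, 0)`.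
-/

open Polynomial

set_option autoImplicit false

namespace Pool.Agent.Results.MP_30687b_ag.StableNotCompatible

universe u

section Definitions

variable (p : ℕ) (R : Type u) [CommRing R]

/-- `φ` is an element of `Hom_R(F^e_* R, R)`: an additive map `R → R` with
`φ (r ^ (p ^ e) * s) = r * φ s`. -/
def IsCartierMap {R : Type u} [CommRing R] (e : ℕ) (φ : R →+ R) : Prop :=
  ∀ r s : R, φ (r ^ p ^ e * s) = r * φ s

/-- `R` is `F`-finite. -/
def IsFFinite [Fact p.Prime] [CharP R p] : Prop := (frobenius R p).Finite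

/-- `R` is strongly `F`-regular: for every `c` outside all minimal primes there are `e ≥ 1` and
`ψ ∈ Hom_R(F^e_* R, R)` with `ψ (F^e_* c) = 1`. -/
def IsStronglyFRegular : Prop :=
  ∀ c : R, (∀ P ∈ minimalPrimes R, c ∉ P) →
    ∃ e : ℕ, 1 ≤ e ∧ ∃ ψ : R →+ R, IsCartierMap p e ψ ∧ ψ c = 1

variable {R}

/-- `b` is a `p`-family: the Frobenius power `b_e ^ [p]`, the ideal generated by the `p`-th powers
of the elements of `b_e`, lies in `b_{e+1}`. -/
def IsPFamily (b : ℕ → Ideal R) : Prop :=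
  ∀ e : ℕ, Ideal.span {x : R | ∃ g ∈ b e, x = g ^ p} ≤ b (e + 1)

/-- `b` is `p`-stable: every `b_e` is the set of all `r` with `r ^ (p ^ f) ∈ b_{e+f}` for all
sufficiently large `f`. -/
def IsPStable (b : ℕ → Ideal R) : Prop :=
  ∀ (e : ℕ) (r : R), (∃ N : ℕ, ∀ f ≥ N, r ^ p ^ f ∈ b (e + f)) ↔ r ∈ b e

/-- property (S): there are `d ≥ 1` and a surjective `φ ∈ Hom_R(F^d_* R, R)` which maps
`F^d_* b_{e+d}` into `b_e` for all `e`. -/
def PropertyS (b : ℕ → Ideal R) : Prop :=
  ∃ d : ℕ, 1 ≤ d ∧ ∃ φ : R →+ R, IsCartierMap p d φ ∧ Function.Surjective φ ∧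
    ∀ e : ℕ, ∀ r ∈ b (e + d), φ r ∈ b e

end Definitions

/-- For every infinite perfect field `k` of characteristic `p`, the ring `k[x][y]` is Noetherian,
`F`-finite and strongly `F`-regular, and has a `p`-stable `p`-family without property (S). -/
theorem result (p : ℕ) [Fact p.Prime] (k : Type u) [Field k] [CharP k p] [PerfectRing k p]
    [Infinite k] :
    IsNoetherianRing k[X][X] ∧ IsFFinite p k[X][X] ∧ IsStronglyFRegular p k[X][X] ∧
      ∃ b : ℕ → Ideal k[X][X], IsPFamily p b ∧ IsPStable p b ∧ ¬ PropertyS p b := by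
  have hp : 0 < p := Nat.Prime.pos Fact.out
  obtain ⟨a, ha⟩ : ∃ a : ℕ → k, Function.Injective a :=
    ⟨Infinite.natEmbedding k, (Infinite.natEmbedding k).injective⟩
  refine ⟨inferInstance, ?_, ?_, Pool.Agent.V1146.Car.bfam p a hp, ?_, ?_, ?_⟩
  · exact Pool.Agent.V1146.Car.frob_finite_poly p _
      (Pool.Agent.V1146.Car.frob_finite_poly p _ (Pool.Agent.V1146.Car.frob_finite_field p k))
  · intro c hc
    refine Pool.Agent.V1146.Car.hasSplit_poly p
      (Pool.Agent.V1146.Car.hasSplit_poly p (Pool.Agent.V1146.Car.hasSplit_field p k)) c ?_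
    rintro rfl
    rw [IsDomain.minimalPrimes_eq_singleton_bot] at hc
    exact hc ⊥ rfl (Ideal.zero_mem _)
  · intro e
    apply Ideal.span_le.mpr
    rintro x ⟨g, hg, rfl⟩
    have h1 := (Pool.Agent.V1146.Car.cond_pow p a e 1 g).mpr hg
    rw [pow_one] at h1
    exact h1
  · intro e r
    constructor
    · rintro ⟨N, hN⟩
      exact (Pool.Agent.V1146.Car.cond_pow p a e N r).mp (hN N le_rfl)
    · intro hr
      exact ⟨0, fun f _ => (Pool.Agent.V1146.Car.cond_pow p a e f r).mpr hr⟩
  · rintro ⟨d, hd, φ, hφ, hsurj, hb⟩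
    exact Pool.Agent.V1146.Car.no_surj p a ha hp d hd φ hφ hb hsurj

end Pool.Agent.Results.MP_30687b_ag.StableNotCompatible
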